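import Pool.Agent.H23.AR.Euler

/-!
# Bounds for the `L`-series in the half plane `Re s > 3/2`
-/

set_option autoImplicit false

namespace Pool.Agent.H23.AR

open IsDedekindDomain NumberField IsLocalRing Filter Topology ArithmeticFunction
open Pool.Agent.W189.NF (aV eV aLoc eLoc card_res finite_res locPS locPS_eq inv_coeff inv_bound rec_sum
  FData toC northcott_nm LFunction_eq eV_le aV_le)
open Pool.Agent.H921R2.TatePole (nm two_le_nm nm_summable below nm_eq below_le_nm card_above)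

/-- the integral test -/
lemma sum_rpow_le {u : ℝ} (hu : 1 < u) : ∑' n : ℕ, ((n : ℝ) + 1) ^ (-u) ≤ u / (u - 1) := by
  have hu1 : 0 < u - 1 := by linarith
  have hstep : ∀ n : ℕ, ((n : ℝ) + 2) ^ (-u) ≤
      (((n : ℝ) + 1) ^ (1 - u) - ((n : ℝ) + 2) ^ (1 - u)) / (u - 1) := by
    intro n
    have hx : (0 : ℝ) < (n : ℝ) + 2 := by positivity
    have hx1 : (0 : ℝ) < (n : ℝ) + 1 := by positivity
    rw [le_div_iff₀ hu1]
    obtain ⟨t, ht⟩ : ∃ t : ℝ, t = ((n : ℝ) + 1) / ((n : ℝ) + 2) := ⟨_, rfl⟩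
    have ht0 : 0 < t := by rw [ht]; positivity
    have e1 : ((n : ℝ) + 1) ^ (1 - u) = ((n : ℝ) + 2) ^ (1 - u) * t ^ (1 - u) := by
      rw [← Real.mul_rpow hx.le ht0.le, ht]
      congr 1
      field_simp
    have e2 : ((n : ℝ) + 2) ^ (-u) = ((n : ℝ) + 2) ^ (1 - u) * ((n : ℝ) + 2)⁻¹ := by
      rw [← Real.rpow_neg_one, ← Real.rpow_add hx]
      congr 1
      ring
    have h1 : 1 + (u - 1) * ((n : ℝ) + 2)⁻¹ ≤ t ^ (1 - u) := by
      have h2 : Real.log t ≤ t - 1 := Real.log_le_sub_one_of_pos ht0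
      have h3 : t - 1 = -((n : ℝ) + 2)⁻¹ := by rw [ht]; field_simp; ring
      rw [Real.rpow_def_of_pos ht0]
      have h4 := Real.add_one_le_exp (Real.log t * (1 - u))
      have h5 : (u - 1) * ((n : ℝ) + 2)⁻¹ ≤ Real.log t * (1 - u) := by
        rw [h3] at h2
        nlinarith
      linarith
    rw [e1, e2]
    have h6 : 0 < ((n : ℝ) + 2) ^ (1 - u) := by positivity
    have h7 := mul_le_mul_of_nonneg_left h1 h6.le
    linarith
  have hs : Summable fun n : ℕ => ((n : ℝ) + 1) ^ (-u) := by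
    have h1 : Summable fun n : ℕ => (n : ℝ) ^ (-u) := Real.summable_nat_rpow.2 (by linarith)
    refine ((summable_nat_add_iff 1).2 h1).congr fun n => ?_
    push_cast; rfl
  rw [hs.tsum_eq_zero_add]
  have hs2 : Summable fun n : ℕ => (((n + 1 : ℕ) : ℝ) + 1) ^ (-u) :=
    (summable_nat_add_iff (f := fun n : ℕ => ((n : ℝ) + 1) ^ (-u)) 1).2 hs
  have h2 : ∑' n : ℕ, (((n + 1 : ℕ) : ℝ) + 1) ^ (-u) ≤ 1 / (u - 1) := by
    refine Real.tsum_le_of_sum_range_le (fun n => by positivity) fun N => ?_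
    have h3 : ∑ n ∈ Finset.range N, (((n + 1 : ℕ) : ℝ) + 1) ^ (-u) ≤
        (1 - ((N : ℝ) + 1) ^ (1 - u)) / (u - 1) := by
      induction N with
      | zero => simp
      | succ N ih =>
        rw [Finset.sum_range_succ]
        have h4 := hstep N
        have e3 : (((N + 1 : ℕ) : ℝ) + 1) = (N : ℝ) + 2 := by push_cast; ring
        rw [e3]
        calc _ ≤ (1 - ((N : ℝ) + 1) ^ (1 - u)) / (u - 1) +
            (((N : ℝ) + 1) ^ (1 - u) - ((N : ℝ) + 2) ^ (1 - u)) / (u - 1) := by gcongr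
          _ = _ := by ring
    refine h3.trans ?_
    gcongr
    have : (0 : ℝ) ≤ ((N : ℝ) + 1) ^ (1 - u) := by positivity
    linarith
  simp only [Nat.cast_zero, zero_add, Real.one_rpow]
  calc 1 + ∑' n : ℕ, (((n + 1 : ℕ) : ℝ) + 1) ^ (-u) ≤ 1 + 1 / (u - 1) := by gcongr
    _ = u / (u - 1) := by field_simp; ring

/-- partial Euler products of the zeta function -/
lemma prod_zeta_le {u : ℝ} (hu : 1 < u) (P : Finset Nat.Primes) :
    ∏ p ∈ P, (1 - (((p : ℕ) : ℝ)) ^ (-u))⁻¹ ≤ u / (u - 1) := by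
  classical
  -- the completely multiplicative function
  obtain ⟨f, hf⟩ : ∃ f : ℕ →* ℝ, ∀ n : ℕ, n ≠ 0 → f n = (n : ℝ) ^ (-u) := by
    refine ⟨{ toFun := fun n => if n = 0 then 0 else (n : ℝ) ^ (-u), map_one' := by simp,
              map_mul' := fun m n => ?_ }, fun n hn => by
                simp only [MonoidHom.coe_mk, OneHom.coe_mk]; rw [if_neg hn]⟩
    by_cases hm : m = 0
    · simp [hm]
    by_cases hn : n = 0
    · simp [hn]
    rw [if_neg (mul_ne_zero hm hn), if_neg hm, if_neg hn]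
    push_cast
    rw [Real.mul_rpow (by positivity) (by positivity)]
  have hfp : ∀ {p : ℕ}, p.Prime → ‖f p‖ < 1 := by
    intro p hp
    rw [hf p hp.ne_zero, Real.norm_eq_abs, abs_of_nonneg (by positivity)]
    have := rpow_le_half hp.two_le hu
    linarith
  have h1 := EulerProduct.summable_and_hasSum_factoredNumbers_prod_filter_prime_geometric (f := f) hfp
    (P.map ⟨fun p : Nat.Primes => (p : ℕ), Subtype.coe_injective⟩)
  have h2 : ∏ p ∈ P.map ⟨fun p : Nat.Primes => (p : ℕ), Subtype.coe_injective⟩ with p.Prime,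
      (1 - f p)⁻¹ = ∏ p ∈ P, (1 - (((p : ℕ) : ℝ)) ^ (-u))⁻¹ := by
    rw [Finset.filter_true_of_mem, Finset.prod_map]
    · refine Finset.prod_congr rfl fun p _ => ?_
      simp only [Function.Embedding.coeFn_mk]
      rw [hf _ p.2.ne_zero]
    · intro p hp
      obtain ⟨q, _, rfl⟩ := Finset.mem_map.1 hp
      exact q.2
  rw [h2] at h1
  rw [← h1.2.tsum_eq]
  have hs : Summable fun n : ℕ => ((n : ℝ) + 1) ^ (-u) := by
    have h1 : Summable fun n : ℕ => (n : ℝ) ^ (-u) := Real.summable_nat_rpow.2 (by linarith)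
    refine ((summable_nat_add_iff 1).2 h1).congr fun n => ?_
    push_cast; rfl
  refine le_trans ?_ (sum_rpow_le hu)
  set S := Nat.factoredNumbers (P.map ⟨fun p : Nat.Primes => (p : ℕ), Subtype.coe_injective⟩) with hS
  have hne : ∀ m : S, (m : ℕ) ≠ 0 := fun m => Nat.ne_zero_of_mem_factoredNumbers m.2
  have e1 : ∀ m : S, f (m : ℕ) = ((((m : ℕ) - 1 : ℕ) : ℝ) + 1) ^ (-u) := by
    intro m
    rw [hf _ (hne m)]
    congr 1
    have h3 : (m : ℕ) - 1 + 1 = (m : ℕ) := Nat.succ_pred_eq_of_pos (Nat.pos_of_ne_zero (hne m))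
    exact_mod_cast h3.symm
  have hinj : Function.Injective fun m : S => (m : ℕ) - 1 := by
    intro m m' h
    simp only at h
    have h1 := hne m
    have h2 := hne m'
    exact Subtype.ext (by omega)
  simp only [e1]
  exact tsum_comp_le_tsum_of_inj hs (fun n => by positivity) hinj

variable {K : Type} [Field K] [NumberField K]

/-- the local bound -/
noncomputable def bd (u : ℝ) (v : HeightOneSpectrum (𝓞 K)) : ℝ :=
  (1 - (nm v : ℝ) ^ (-u))⁻¹ ^ 2 * (8 / 5) ^ (if (below v : ℕ) = 2 then 1 else 0)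

lemma one_sub_pos {u : ℝ} (hu : 1 < u) (v : HeightOneSpectrum (𝓞 K)) :
    1 / 2 ≤ 1 - (nm v : ℝ) ^ (-u) ∧ 1 - (nm v : ℝ) ^ (-u) ≤ 1 := by
  have h1 := rpow_le_half (two_le_nm v) hu
  have h2 : 0 ≤ (nm v : ℝ) ^ (-u) := by positivity
  constructor <;> linarith

lemma bd_pos {u : ℝ} (hu : 1 < u) (v : HeightOneSpectrum (𝓞 K)) : 0 < bd u v := by
  unfold bd
  have := (one_sub_pos hu v).1
  have : 0 < 1 - (nm v : ℝ) ^ (-u) := by linarith
  positivity

lemma prod_bd {u : ℝ} (hu : 1 < u) (S : Finset (HeightOneSpectrum (𝓞 K))) :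
    ∏ v ∈ S, bd u v ≤ ((8 / 5) * (u / (u - 1)) ^ 2) ^ (Module.finrank ℚ K) := by
  classical
  obtain ⟨n, hn⟩ : ∃ n : ℕ, n = Module.finrank ℚ K := ⟨_, rfl⟩
  rw [← hn]
  have hcard : ∀ p : Nat.Primes, (S.filter fun v => below v = p).card ≤ n := by
    intro p
    rw [hn]
    exact card_above p _ fun v hv => (Finset.mem_filter.1 hv).2
  have h1 : ∏ v ∈ S, bd u v = (∏ v ∈ S, (1 - (nm v : ℝ) ^ (-u))⁻¹) ^ 2 *
      (8 / 5) ^ (∑ v ∈ S, if (below v : ℕ) = 2 then 1 else 0) := by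
    unfold bd
    rw [Finset.prod_mul_distrib, Finset.prod_pow, Finset.prod_pow_eq_pow_sum]
  have h2 : (∑ v ∈ S, if (below v : ℕ) = 2 then 1 else 0) ≤ n := by
    rw [← Finset.card_filter]
    refine le_trans (le_of_eq ?_) (hcard ⟨2, Nat.prime_two⟩)
    congr 1
    apply Finset.filter_congr
    intro v _
    exact ⟨fun h => Subtype.ext h, fun h => by rw [h]⟩
  have hle1 : ∀ p : Nat.Primes, 1 ≤ (1 - (((p : ℕ) : ℝ)) ^ (-u))⁻¹ := by
    intro p
    have h3 := rpow_le_half p.2.two_le hu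
    have h4 : (0 : ℝ) ≤ ((p : ℕ) : ℝ) ^ (-u) := by positivity
    exact (one_le_inv₀ (by linarith)).2 (by linarith)
  have h3 : ∏ v ∈ S, (1 - (nm v : ℝ) ^ (-u))⁻¹ ≤ (u / (u - 1)) ^ n := by
    calc ∏ v ∈ S, (1 - (nm v : ℝ) ^ (-u))⁻¹ ≤ ∏ v ∈ S, (1 - (((below v : ℕ) : ℝ)) ^ (-u))⁻¹ := by
          refine Finset.prod_le_prod (fun v _ => ?_) fun v _ => ?_
          · have := (one_sub_pos hu v).1
            exact inv_nonneg.2 (by linarith)
          · have h5 := rpow_le_half (below v).2.two_le hu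
            apply inv_anti₀ (by linarith)
            have h6 : (nm v : ℝ) ^ (-u) ≤ ((below v : ℕ) : ℝ) ^ (-u) := by
              apply Real.rpow_le_rpow_of_nonpos
              · exact_mod_cast (below v).2.pos
              · exact_mod_cast below_le_nm v
              · linarith
            linarith
      _ = ∏ p ∈ S.image below, ∏ v ∈ S.filter (fun v => below v = p), (1 - (((below v : ℕ) : ℝ)) ^ (-u))⁻¹ := by
          rw [Finset.prod_fiberwise_of_maps_to]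
          intro v hv
          exact Finset.mem_image_of_mem _ hv
      _ = ∏ p ∈ S.image below, ((1 - (((p : ℕ) : ℝ)) ^ (-u))⁻¹) ^ (S.filter fun v => below v = p).card := by
          refine Finset.prod_congr rfl fun p _ => ?_
          rw [← Finset.prod_const]
          refine Finset.prod_congr rfl fun v hv => ?_
          rw [(Finset.mem_filter.1 hv).2]
      _ ≤ ∏ p ∈ S.image below, ((1 - (((p : ℕ) : ℝ)) ^ (-u))⁻¹) ^ n := by
          refine Finset.prod_le_prod (fun p _ => by have := hle1 p; positivity) fun p _ => ?_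
          exact pow_le_pow_right₀ (hle1 p) (hcard p)
      _ = (∏ p ∈ S.image below, (1 - (((p : ℕ) : ℝ)) ^ (-u))⁻¹) ^ n := by rw [Finset.prod_pow]
      _ ≤ (u / (u - 1)) ^ n := by
          refine pow_le_pow_left₀ (Finset.prod_nonneg fun p _ => ?_) (prod_zeta_le hu _) n
          have := hle1 p
          linarith
  have h4 : 0 ≤ ∏ v ∈ S, (1 - (nm v : ℝ) ^ (-u))⁻¹ := by
    refine Finset.prod_nonneg fun v _ => ?_
    have := (one_sub_pos hu v).1
    exact inv_nonneg.2 (by linarith)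
  rw [h1]
  calc _ ≤ ((u / (u - 1)) ^ n) ^ 2 * (8 / 5) ^ n := by
        gcongr
        norm_num
    _ = _ := by rw [mul_pow, ← pow_mul, ← pow_mul, mul_comm n 2]; ring

variable (E : WeierstrassCurve K)

lemma ifac_bounds (v : HeightOneSpectrum (𝓞 K)) {s : ℂ} (hs : 3 / 2 < s.re) :
    ‖ifac E v s‖ ≤ bd (s.re - 1 / 2) v ∧ (bd (s.re - 1 / 2) v)⁻¹ ≤ ‖ifac E v s‖ := by
  have hu : 1 < s.re - 1 / 2 := by linarith
  have hq2 : (2 : ℝ) ≤ nm v := by exact_mod_cast two_le_nm v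
  have hq0 : (0 : ℝ) < nm v := by linarith
  obtain ⟨x, hx⟩ : ∃ x : ℂ, x = (nm v : ℂ) ^ (-s) := ⟨_, rfl⟩
  have hxn : ‖x‖ = (nm v : ℝ) ^ (-s.re) := by
    rw [hx, Complex.norm_natCast_cpow_of_pos (by have := two_le_nm v; omega)]
    simp
  have hfac : ifac E v s = 1 - (aV E v : ℂ) * x + (eV E v : ℂ) * x ^ 2 := by
    unfold ifac; rw [hx]
  obtain ⟨p1, p2⟩ := one_sub_pos hu v
  obtain ⟨t, ht⟩ : ∃ t : ℝ, t = (nm v : ℝ) ^ (-(s.re - 1 / 2)) := ⟨_, rfl⟩
  rw [← ht] at p1 p2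
  have ht0 : 0 ≤ t := by rw [ht]; positivity
  have hbd : bd (s.re - 1 / 2) v = (1 - t)⁻¹ ^ 2 * (8 / 5) ^ (if (below v : ℕ) = 2 then 1 else 0) := by
    unfold bd; rw [ht]
  have hI1 : 1 ≤ (1 - t)⁻¹ := (one_le_inv₀ (by linarith)).2 p2
  have hone : (1 : ℝ) ≤ (8 / 5) ^ (if (below v : ℕ) = 2 then 1 else 0) := one_le_pow₀ (by norm_num)
  rcases aV_small E v with h | ⟨h2, h8⟩
  · obtain ⟨α, β, r1, r2, r3, r4⟩ := exists_roots (two_le_nm v) h (eV_or E v)
    have h6 : Real.sqrt (nm v) * (nm v : ℝ) ^ (-s.re) = t := by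
      rw [ht, Real.sqrt_eq_rpow, ← Real.rpow_add hq0]
      congr 1
      ring
    have e1 : ifac E v s = (1 - α * x) * (1 - β * x) := by
      rw [hfac, ← r1, ← r2]; ring
    have b : ∀ γ : ℂ, ‖γ‖ ≤ Real.sqrt (nm v) → ‖γ * x‖ ≤ t := by
      intro γ hγ
      rw [norm_mul, hxn, ← h6]
      gcongr
    have b1 : ∀ γ : ℂ, ‖γ‖ ≤ Real.sqrt (nm v) → ‖1 - γ * x‖ ≤ (1 - t)⁻¹ ∧ (1 - t) ≤ ‖1 - γ * x‖ := by
      intro γ hγ
      have h7 := b γ hγ
      constructor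
      · refine (norm_sub_le _ _).trans ?_
        rw [norm_one]
        have h9 : 1 + t ≤ (1 - t)⁻¹ := by
          rw [← one_div, le_div_iff₀ (by linarith)]
          nlinarith
        linarith
      · have h10 := norm_sub_norm_le (1 : ℂ) (γ * x)
        rw [norm_one] at h10
        linarith
    obtain ⟨u1, l1⟩ := b1 α r3
    obtain ⟨u2, l2⟩ := b1 β r4
    rw [e1, norm_mul, hbd]
    have hpos : 0 < 1 - t := by linarith
    constructor
    · calc ‖1 - α * x‖ * ‖1 - β * x‖ ≤ (1 - t)⁻¹ * (1 - t)⁻¹ := by gcongr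
        _ = (1 - t)⁻¹ ^ 2 * 1 := by ring
        _ ≤ _ := by gcongr
    · rw [mul_inv]
      calc ((1 - t)⁻¹ ^ 2)⁻¹ * ((8 / 5 : ℝ) ^ (if (below v : ℕ) = 2 then 1 else 0))⁻¹
          ≤ ((1 - t)⁻¹ ^ 2)⁻¹ * 1 := by
            gcongr
            exact inv_le_one_of_one_le₀ hone
        _ = (1 - t) * (1 - t) := by rw [mul_one, inv_pow, inv_inv]; ring
        _ ≤ _ := by gcongr
  · have h6 := eight_rpow h8 hs
    have ha : |(aV E v : ℝ)| ≤ (nm v : ℝ) := by exact_mod_cast aV_le E v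
    have he : |(eV E v : ℝ)| ≤ (nm v : ℝ) := by exact_mod_cast eV_le E v
    have h7 : (nm v : ℝ) ^ (-s.re) ≤ 5 / 112 := by
      have h8' : (8 : ℝ) ≤ nm v := by exact_mod_cast h8
      have h9 : 0 < (nm v : ℝ) ^ (-s.re) := by positivity
      nlinarith
    have n1 : ‖(aV E v : ℂ) * x‖ ≤ 5 / 14 := by
      rw [norm_mul, Complex.norm_intCast, hxn]
      calc _ ≤ (nm v : ℝ) * (nm v : ℝ) ^ (-s.re) := by gcongr
        _ ≤ _ := h6
    have n2 : ‖(eV E v : ℂ) * x ^ 2‖ ≤ 1 / 60 := by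
      rw [norm_mul, norm_pow, Complex.norm_intCast, hxn]
      calc |(eV E v : ℝ)| * ((nm v : ℝ) ^ (-s.re)) ^ 2
          ≤ (nm v : ℝ) * ((nm v : ℝ) ^ (-s.re)) ^ 2 := by gcongr
        _ = ((nm v : ℝ) * (nm v : ℝ) ^ (-s.re)) * (nm v : ℝ) ^ (-s.re) := by ring
        _ ≤ (5 / 14) * (5 / 112) := by gcongr
        _ ≤ 1 / 60 := by norm_num
    have n3 : ‖ifac E v s‖ ≤ 8 / 5 := by
      rw [hfac]
      calc _ ≤ ‖(1 : ℂ) - (aV E v : ℂ) * x‖ + ‖(eV E v : ℂ) * x ^ 2‖ := norm_add_le _ _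
        _ ≤ ‖(1 : ℂ)‖ + ‖(aV E v : ℂ) * x‖ + ‖(eV E v : ℂ) * x ^ 2‖ := by
          gcongr; exact norm_sub_le _ _
        _ ≤ 1 + 5 / 14 + 1 / 60 := by rw [norm_one]; gcongr
        _ ≤ 8 / 5 := by norm_num
    have n4 : 5 / 8 ≤ ‖ifac E v s‖ := by
      rw [hfac]
      have e1 : ‖(1 : ℂ)‖ ≤ ‖1 - (aV E v : ℂ) * x + (eV E v : ℂ) * x ^ 2‖ +
          (‖(aV E v : ℂ) * x‖ + ‖(eV E v : ℂ) * x ^ 2‖) := by
        have e2 : (1 : ℂ) = (1 - (aV E v : ℂ) * x + (eV E v : ℂ) * x ^ 2) +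
          ((aV E v : ℂ) * x - (eV E v : ℂ) * x ^ 2) := by ring
        calc ‖(1 : ℂ)‖ = ‖(1 - (aV E v : ℂ) * x + (eV E v : ℂ) * x ^ 2) +
          ((aV E v : ℂ) * x - (eV E v : ℂ) * x ^ 2)‖ := by rw [← e2]
          _ ≤ _ := (norm_add_le _ _).trans (by gcongr; exact norm_sub_le _ _)
      rw [norm_one] at e1
      have : (1 : ℝ) - 5 / 14 - 1 / 60 ≥ 5 / 8 := by norm_num
      linarith
    rw [hbd, if_pos h2, pow_one]
    have hI2 : 1 ≤ (1 - t)⁻¹ ^ 2 := one_le_pow₀ hI1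
    constructor
    · nlinarith
    · rw [mul_inv]
      have h11 : ((1 - t)⁻¹ ^ 2)⁻¹ ≤ 1 := inv_le_one_of_one_le₀ hI2
      have h12 : (8 / 5 : ℝ)⁻¹ = 5 / 8 := by norm_num
      rw [h12]
      have h13 : 0 ≤ ((1 - t)⁻¹ ^ 2)⁻¹ := by positivity
      nlinarith

/-- **bounds for the `L`-series** -/
theorem LSeries_bounds {s : ℂ} (hs : 3 / 2 < s.re) :
    ‖E.LSeries s‖ ≤ ((8 / 5) * ((s.re - 1 / 2) / (s.re - 3 / 2)) ^ 2) ^ (Module.finrank ℚ K) ∧
    (((8 / 5) * ((s.re - 1 / 2) / (s.re - 3 / 2)) ^ 2) ^ (Module.finrank ℚ K))⁻¹ ≤ ‖E.LSeries s‖ := by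
  have hu : 1 < s.re - 1 / 2 := by linarith
  have h1 := (LSeries_hasProd E hs).2
  have h2 : Tendsto (fun S : Finset (HeightOneSpectrum (𝓞 K)) => ‖∏ v ∈ S, (ifac E v s)⁻¹‖) atTop
      (𝓝 ‖E.LSeries s‖) := by
    have h3 : Tendsto (fun S : Finset (HeightOneSpectrum (𝓞 K)) => ∏ v ∈ S, (ifac E v s)⁻¹) atTop
      (𝓝 (E.LSeries s)) := by
      have h4 := h1
      rw [HasProd] at h4
      simpa using h4
    exact h3.norm
  have e0 : s.re - 1 / 2 - 1 = s.re - 3 / 2 := by ring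
  have hB : ∀ S : Finset (HeightOneSpectrum (𝓞 K)), ∏ v ∈ S, bd (s.re - 1 / 2) v ≤
      ((8 / 5) * ((s.re - 1 / 2) / (s.re - 3 / 2)) ^ 2) ^ (Module.finrank ℚ K) := by
    intro S
    have := prod_bd hu S
    rwa [e0] at this
  have hpos : ∀ v : HeightOneSpectrum (𝓞 K), 0 < bd (s.re - 1 / 2) v := fun v => bd_pos hu v
  have hfpos : ∀ v : HeightOneSpectrum (𝓞 K), 0 < ‖ifac E v s‖ := fun v =>
    lt_of_lt_of_le (inv_pos.2 (hpos v)) (ifac_bounds E v hs).2
  constructor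
  · refine le_of_tendsto h2 (Eventually.of_forall fun S => ?_)
    rw [norm_prod]
    refine le_trans (Finset.prod_le_prod (fun v _ => norm_nonneg _) fun v _ => ?_) (hB S)
    rw [norm_inv]
    exact inv_le_of_inv_le₀ (hpos v) (ifac_bounds E v hs).2
  · refine ge_of_tendsto h2 (Eventually.of_forall fun S => ?_)
    have h5 : 0 < ∏ v ∈ S, bd (s.re - 1 / 2) v := Finset.prod_pos fun v _ => hpos v
    refine (inv_anti₀ h5 (hB S)).trans ?_
    rw [norm_prod, ← Finset.prod_inv_distrib]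
    refine Finset.prod_le_prod (fun v _ => (inv_pos.2 (hpos v)).le) fun v _ => ?_
    rw [norm_inv]
    exact inv_anti₀ (hfpos v) (ifac_bounds E v hs).1

theorem LSeries_ne {s : ℂ} (hs : 3 / 2 < s.re) : E.LSeries s ≠ 0 := by
  have h1 := (LSeries_bounds E hs).2
  have h2 : 0 < s.re - 3 / 2 := by linarith
  have h3 : 0 < s.re - 1 / 2 := by linarith
  have h4 : 0 < (((8 / 5) * ((s.re - 1 / 2) / (s.re - 3 / 2)) ^ 2) ^ (Module.finrank ℚ K))⁻¹ := by positivity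
  intro h
  rw [h, norm_zero] at h1
  linarith

end Pool.Agent.H23.AR
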