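import Pool.Agent.H23.AR.Hasse

/-!
# The Euler product in the half plane `Re s > 3/2`
-/

set_option autoImplicit false

namespace Pool.Agent.H23.AR

open IsDedekindDomain NumberField IsLocalRing Filter Topology ArithmeticFunction
open Pool.Agent.W189.NF (aV eV aLoc eLoc card_res finite_res locPS locPS_eq inv_coeff inv_bound rec_sum
  FData toC northcott_nm LFunction_eq eV_le aV_le)
open Pool.Agent.H921R2.TatePole (nm two_le_nm nm_summable below nm_eq)

lemma coeff_bound {a e : ℤ} {α β : ℂ} {R : ℝ} (hα : ‖α‖ ≤ R) (hβ : ‖β‖ ≤ R)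
    (h1 : α + β = a) (h2 : α * β = e) {c : ℕ → ℤ} (c0 : c 0 = 1) (c1 : c 1 = a)
    (c2 : ∀ k, c (k + 2) = a * c (k + 1) - e * c k) (k : ℕ) :
    |(c k : ℝ)| ≤ (k + 1) * R ^ k := by
  have hR : 0 ≤ R := (norm_nonneg α).trans hα
  have hrec : ∀ k, (c (k + 1) : ℂ) = α * c k + β ^ (k + 1) := by
    intro k
    induction k with
    | zero => rw [c1, c0, ← h1]; simp
    | succ k ih =>
      rw [c2 k]
      push_cast
      rw [← h1, ← h2, ih]
      ring
  have hn : ∀ k, ‖(c k : ℂ)‖ ≤ (k + 1) * R ^ k := by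
    intro k
    induction k with
    | zero => rw [c0]; simp
    | succ k ih =>
      rw [hrec k]
      refine (norm_add_le _ _).trans ?_
      rw [norm_mul, norm_pow]
      push_cast
      calc ‖α‖ * ‖(c k : ℂ)‖ + ‖β‖ ^ (k + 1) ≤ R * ((k + 1) * R ^ k) + R ^ (k + 1) := by gcongr
        _ = _ := by ring
  have := hn k
  rwa [Complex.norm_intCast] at this

lemma exists_roots {a e : ℤ} {q : ℕ} (hq : 2 ≤ q) (ha : a ^ 2 ≤ 4 * (q : ℤ))
    (he : e = q ∨ (e = 0 ∧ |a| ≤ 1)) :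
    ∃ α β : ℂ, α + β = a ∧ α * β = e ∧ ‖α‖ ≤ Real.sqrt q ∧ ‖β‖ ≤ Real.sqrt q := by
  rcases he with he | ⟨he, ha1⟩
  · have hd : (0 : ℝ) ≤ 4 * (q : ℝ) - (a : ℝ) ^ 2 := by
      have : ((a : ℤ) : ℝ) ^ 2 ≤ 4 * ((q : ℤ) : ℝ) := by exact_mod_cast ha
      push_cast at this
      linarith
    obtain ⟨D, hD⟩ : ∃ D : ℝ, D = Real.sqrt (4 * (q : ℝ) - (a : ℝ) ^ 2) := ⟨_, rfl⟩
    have hD2 : D ^ 2 = 4 * (q : ℝ) - (a : ℝ) ^ 2 := by rw [hD, Real.sq_sqrt hd]
    have hD2c : (D : ℂ) ^ 2 = 4 * (q : ℂ) - (a : ℂ) ^ 2 := by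
      exact_mod_cast congrArg (fun x : ℝ => (x : ℂ)) hD2
    have hn : ∀ ε : ℝ, ε ^ 2 = 1 → ‖((a : ℂ) + ε * D * Complex.I) / 2‖ = Real.sqrt q := by
      intro ε hε
      rw [norm_div]
      have h1 : (a : ℂ) + ε * D * Complex.I = ((a : ℝ) : ℂ) + ((ε * D : ℝ) : ℂ) * Complex.I := by
        push_cast; ring
      have h3 : (a : ℝ) ^ 2 + (ε * D) ^ 2 = (2 * Real.sqrt q) ^ 2 := by
        rw [mul_pow, hε, hD2, mul_pow, Real.sq_sqrt (by positivity)]
        ring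
      have h2 : ‖(a : ℂ) + ε * D * Complex.I‖ = 2 * Real.sqrt q := by
        rw [h1, Complex.norm_add_mul_I, h3, Real.sqrt_sq (by positivity)]
      rw [h2]
      simp
    refine ⟨((a : ℂ) + (1 : ℝ) * D * Complex.I) / 2, ((a : ℂ) + (-1 : ℝ) * D * Complex.I) / 2, ?_, ?_,
      (hn 1 (by norm_num)).le, (hn (-1) (by norm_num)).le⟩
    · push_cast; ring
    · rw [he]
      push_cast
      have hI := Complex.I_sq
      linear_combination (-(D : ℂ) ^ 2 / 4) * hI + (1 / 4) * hD2c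
  · refine ⟨a, 0, by simp, by rw [he]; simp, ?_, by simp⟩
    rw [Complex.norm_intCast]
    have h1 : |(a : ℝ)| ≤ 1 := by exact_mod_cast ha1
    refine h1.trans ?_
    rw [Real.one_le_sqrt]
    exact_mod_cast (by omega : 1 ≤ q)

variable {K : Type} [Field K] [NumberField K] (E : WeierstrassCurve K)

open Classical in
/-- the indicator of the places above two -/
noncomputable def at2 (v : HeightOneSpectrum (𝓞 K)) : ℝ := if (below v : ℕ) = 2 then 1 else 0

lemma at2_nonneg (v : HeightOneSpectrum (𝓞 K)) : 0 ≤ at2 v := by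
  unfold at2; split_ifs <;> norm_num

lemma at2_summable : Summable (at2 (K := K)) := by
  classical
  have hf : Set.Finite {v : HeightOneSpectrum (𝓞 K) | (below v : ℕ) = 2} := by
    have h1 := Pool.Agent.H921R2.TatePole.fiber_finite (K := K) ⟨2, Nat.prime_two⟩
    have h2 : Set.Finite {v : HeightOneSpectrum (𝓞 K) | below v = ⟨2, Nat.prime_two⟩} :=
      Set.finite_coe_iff.1 h1
    refine h2.subset ?_
    intro v hv
    exact Subtype.ext hv
  refine summable_of_ne_finset_zero (s := hf.toFinset) fun v hv => ?_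
  unfold at2
  rw [if_neg]
  intro h
  exact hv (hf.mem_toFinset.2 h)

lemma rpow_le_half {q : ℕ} (hq : 2 ≤ q) {u : ℝ} (hu : 1 < u) : (q : ℝ) ^ (-u) ≤ 1 / 2 := by
  have hq2 : (2 : ℝ) ≤ q := by exact_mod_cast hq
  calc (q : ℝ) ^ (-u) ≤ (q : ℝ) ^ (-1 : ℝ) :=
        Real.rpow_le_rpow_of_exponent_le (by linarith) (by linarith)
    _ = (q : ℝ)⁻¹ := Real.rpow_neg_one _
    _ ≤ 2⁻¹ := inv_anti₀ (by norm_num) hq2
    _ = 1 / 2 := by norm_num

lemma eight_rpow {q : ℕ} (hq : 8 ≤ q) {σ : ℝ} (hσ : 3 / 2 < σ) :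
    (q : ℝ) * (q : ℝ) ^ (-σ) ≤ 5 / 14 := by
  have hq2 : (8 : ℝ) ≤ q := by exact_mod_cast hq
  have hq0 : (0 : ℝ) < q := by linarith
  have h1 : (q : ℝ) * (q : ℝ) ^ (-σ) = (q : ℝ) ^ (1 - σ) := by
    rw [sub_eq_add_neg, Real.rpow_add hq0, Real.rpow_one]
  rw [h1]
  calc (q : ℝ) ^ (1 - σ) ≤ (q : ℝ) ^ (-(1 / 2) : ℝ) :=
        Real.rpow_le_rpow_of_exponent_le (by linarith) (by linarith)
    _ ≤ (8 : ℝ) ^ (-(1 / 2) : ℝ) := Real.rpow_le_rpow_of_nonpos (by norm_num) hq2 (by norm_num)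
    _ = (Real.sqrt 8)⁻¹ := by rw [Real.rpow_neg (by norm_num), Real.sqrt_eq_rpow]
    _ ≤ (14 / 5 : ℝ)⁻¹ := by
      apply inv_anti₀ (by norm_num)
      apply Real.le_sqrt_of_sq_le
      norm_num
    _ = 5 / 14 := by norm_num

theorem fdata {σ : ℝ} (hσ : 3 / 2 < σ) : FData (fun v : HeightOneSpectrum (𝓞 K) => nm v)
    (locPS E) σ where
  two_le := two_le_nm
  north := northcott_nm
  const := fun v => by
    rw [← PowerSeries.coeff_zero_eq_constantCoeff, locPS_eq]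
    exact (inv_coeff (aV E v) (eV E v)).1
  sum := by
    have hg : Summable fun n : ℕ => ((n : ℝ) + 2) * (1 / 2 : ℝ) ^ n := by
      have h1 : Summable fun n : ℕ => (n : ℝ) ^ 1 * (1 / 2 : ℝ) ^ n :=
        summable_pow_mul_geometric_of_norm_lt_one 1 (by norm_num)
      have h2 : Summable fun n : ℕ => (2 : ℝ) * (1 / 2 : ℝ) ^ n :=
        (summable_geometric_of_lt_one (by norm_num) (by norm_num)).mul_left 2
      refine (h1.add h2).congr fun n => ?_
      ring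
    have hu : 1 < σ - 1 / 2 := by linarith
    have h1 := ((at2_summable (K := K)).add (nm_summable (K := K) (x := σ - 1 / 2) hu)).mul_of_nonneg hg
      (fun v => by have := at2_nonneg v; positivity) (fun n => by positivity)
    refine Summable.of_nonneg_of_le (fun x => by positivity) (fun x => ?_) h1
    obtain ⟨v, n⟩ := x
    simp only
    have hq2 : (2 : ℝ) ≤ nm v := by exact_mod_cast two_le_nm v
    have hq0 : (0 : ℝ) < nm v := by linarith
    have h4 : (nm v : ℝ) ^ (-(σ * (n + 1))) = ((nm v : ℝ) ^ (-σ)) ^ (n + 1) := by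
      rw [← Real.rpow_natCast, ← Real.rpow_mul hq0.le]
      congr 1
      push_cast
      ring
    rw [h4]
    have hat := at2_nonneg v
    rcases aV_small E v with h | ⟨h2, h8⟩
    · obtain ⟨α, β, r1, r2, r3, r4⟩ := exists_roots (two_le_nm v) h (eV_or E v)
      obtain ⟨e0, e1, e2⟩ := inv_coeff (aV E v) (eV E v)
      rw [← locPS_eq] at e0 e1 e2
      have h5 := coeff_bound r3 r4 r1 r2 (c := fun k => (locPS E v).coeff k) e0 e1 e2 (n + 1)
      have h6 : Real.sqrt (nm v) * (nm v : ℝ) ^ (-σ) = (nm v : ℝ) ^ (-(σ - 1 / 2)) := by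
        rw [Real.sqrt_eq_rpow, ← Real.rpow_add hq0]
        congr 1
        ring
      have h7 := rpow_le_half (two_le_nm v) hu
      have h8 : 0 ≤ (nm v : ℝ) ^ (-(σ - 1 / 2)) := by positivity
      calc |(((locPS E v).coeff (n + 1) : ℤ) : ℝ)| * ((nm v : ℝ) ^ (-σ)) ^ (n + 1)
          ≤ ((((n + 1 : ℕ) : ℝ) + 1) * Real.sqrt (nm v) ^ (n + 1)) * ((nm v : ℝ) ^ (-σ)) ^ (n + 1) := by
            gcongr
        _ = ((n : ℝ) + 2) * ((nm v : ℝ) ^ (-(σ - 1 / 2))) ^ (n + 1) := by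
            rw [← h6, mul_pow]; push_cast; ring
        _ = (nm v : ℝ) ^ (-(σ - 1 / 2)) * (((n : ℝ) + 2) * ((nm v : ℝ) ^ (-(σ - 1 / 2))) ^ n) := by
            rw [pow_succ]; ring
        _ ≤ (at2 v + (nm v : ℝ) ^ (-(σ - 1 / 2))) * (((n : ℝ) + 2) * (1 / 2) ^ n) := by
            gcongr
            linarith
    · have h5 := inv_bound (q := nm v) (aV_le E v) (eV_le E v) (n + 1)
      rw [← locPS_eq] at h5
      have h3 : |(((locPS E v).coeff (n + 1) : ℤ) : ℝ)| ≤ ((nm v : ℝ) + 1) ^ (n + 1) := by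
        exact_mod_cast h5
      have h6 := eight_rpow h8 hσ
      have h7 : (nm v : ℝ) ^ (-σ) ≤ 1 / 8 := by
        have h9 : (nm v : ℝ) ^ (-σ) ≤ (nm v : ℝ) ^ (-1 : ℝ) :=
          Real.rpow_le_rpow_of_exponent_le (by linarith) (by linarith)
        rw [Real.rpow_neg_one] at h9
        have h10 : (nm v : ℝ)⁻¹ ≤ 8⁻¹ := inv_anti₀ (by norm_num) (by exact_mod_cast h8)
        linarith
      have h9 : at2 v = 1 := by unfold at2; rw [if_pos h2]
      have h10 : ((nm v : ℝ) + 1) * (nm v : ℝ) ^ (-σ) ≤ 1 / 2 := by linarith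
      calc |(((locPS E v).coeff (n + 1) : ℤ) : ℝ)| * ((nm v : ℝ) ^ (-σ)) ^ (n + 1)
          ≤ ((nm v : ℝ) + 1) ^ (n + 1) * ((nm v : ℝ) ^ (-σ)) ^ (n + 1) := by gcongr
        _ = (((nm v : ℝ) + 1) * (nm v : ℝ) ^ (-σ)) ^ (n + 1) := by rw [mul_pow]
        _ ≤ (1 / 2 : ℝ) ^ (n + 1) := by gcongr
        _ = (1 / 2) * (1 / 2 : ℝ) ^ n := by rw [pow_succ]; ring
        _ ≤ (at2 v + (nm v : ℝ) ^ (-(σ - 1 / 2))) * (((n : ℝ) + 2) * (1 / 2) ^ n) := by
            have h11 : (0 : ℝ) ≤ (nm v : ℝ) ^ (-(σ - 1 / 2)) := by positivity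
            have h12 : (1 : ℝ) ≤ at2 v + (nm v : ℝ) ^ (-(σ - 1 / 2)) := by linarith
            have h13 : (1 / 2 : ℝ) * (1 / 2) ^ n ≤ ((n : ℝ) + 2) * (1 / 2) ^ n := by
              gcongr
              linarith [(Nat.cast_nonneg n : (0 : ℝ) ≤ n)]
            calc (1 / 2) * (1 / 2 : ℝ) ^ n ≤ 1 * (((n : ℝ) + 2) * (1 / 2) ^ n) := by rw [one_mul]; exact h13
              _ ≤ _ := by gcongr

/-- the inverse of the local factor -/
noncomputable def ifac (v : HeightOneSpectrum (𝓞 K)) (s : ℂ) : ℂ :=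
  1 - (aV E v : ℂ) * (nm v : ℂ) ^ (-s) + (eV E v : ℂ) * ((nm v : ℂ) ^ (-s)) ^ 2

/-- **the Euler product of the `L`-series of a Weierstrass curve over a number field** -/
theorem LSeries_hasProd {s : ℂ} (hs : 3 / 2 < s.re) :
    LSeriesSummable ((fun n : ℤ => (n : ℂ)) ∘ E.LFunction) s ∧
    HasProd (fun v : HeightOneSpectrum (𝓞 K) => (ifac E v s)⁻¹) (E.LSeries s) := by
  have h1 := (fdata E hs).main (s := s) le_rfl
  rw [← LFunction_eq] at h1
  have h2 : (toC E.LFunction) = (fun n : ℤ => (n : ℂ)) ∘ E.LFunction := rfl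
  have h3 : (fun v : HeightOneSpectrum (𝓞 K) => (ifac E v s)⁻¹) =
      fun v => ∑' k : ℕ, ((locPS E v).coeff k : ℂ) * ((nm v : ℂ) ^ (-s)) ^ k := by
    funext v
    obtain ⟨e0, e1, e2⟩ := inv_coeff (aV E v) (eV E v)
    rw [← locPS_eq] at e0 e1 e2
    refine (rec_sum (c := fun k => (locPS E v).coeff k) e0 e1 e2 ?_).symm
    have h4 := (fdata E hs).single v (τ := s.re) le_rfl
    refine Summable.of_norm_bounded h4 fun k => ?_
    have hq0 : (0 : ℝ) ≤ nm v := by positivity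
    rw [norm_mul, norm_pow, Complex.norm_intCast,
      Complex.norm_natCast_cpow_of_pos (by have := two_le_nm v; omega)]
    apply le_of_eq
    congr 1
    rw [Complex.neg_re, ← Real.rpow_natCast, ← Real.rpow_mul hq0]
    congr 1
    ring
  rw [h3]
  exact ⟨by rw [← h2]; exact h1.1, h1.2⟩

end Pool.Agent.H23.AR
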