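import Pool.Graph.R_seed8.W189.NF.LSer
import Pool.Graph.R_pool_sql_team_seeded_3997aac3.Q282.NF.LocF
import Pool.Graph.R_seed8.H921R2.TatePole.Base

/-!
# The bound of Hasse for general Weierstrass equations
-/

set_option autoImplicit false

namespace Pool.Agent.H23.AR

open IsDedekindDomain NumberField IsLocalRing
open Pool.Agent.W189.NF (aV eV aLoc eLoc card_res finite_res locPS locPS_eq)
open Pool.Agent.H921R2.TatePole (nm two_le_nm nm_summable below nm_eq)

theorem hasse_long {F : Type} [Field F] [Finite F] (hF : ringChar F ≠ 2) (W : WeierstrassCurve F)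
    [W.IsElliptic] :
    |((Nat.card F : ℝ) + 1 - (Nat.card W.toAffine.Point : ℝ))| ≤ 2 * Real.sqrt (Nat.card F) := by
  classical
  have : Fintype F := Fintype.ofFinite F
  have h2 : (2 : F) ≠ 0 := Ring.two_ne_zero hF
  have h4 : (4 : F) ≠ 0 := by
    have : (4 : F) = 2 * 2 := by norm_num
    rw [this]; exact mul_ne_zero h2 h2
  obtain ⟨c, hc⟩ : ∃ c : F × F × F, c = (W.b₂ / 4, W.b₄ / 2, W.b₆ / 4) := ⟨_, rfl⟩
  -- points as solutions of the equation
  have e1 : W.toAffine.Point ≃ Option {Q : F × F // W.toAffine.Equation Q.1 Q.2} :=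
    { toFun := fun P => match P with
        | .zero => none
        | .some x y h => some ⟨(x, y), h.1⟩
      invFun := fun P => match P with
        | none => .zero
        | some Q => .some Q.1.1 Q.1.2 ((WeierstrassCurve.Affine.equation_iff_nonsingular).1 Q.2)
      left_inv := fun P => by cases P <;> rfl
      right_inv := fun P => by cases P <;> rfl }
  have key : ∀ x y : F, (y + (W.a₁ * x + W.a₃) / 2) ^ 2 - Q282.BP.cub c x =
      (y ^ 2 + W.a₁ * x * y + W.a₃ * y) - (x ^ 3 + W.a₂ * x ^ 2 + W.a₄ * x + W.a₆) := by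
    intro x y
    unfold Q282.BP.cub
    rw [hc]
    simp only [WeierstrassCurve.b₂, WeierstrassCurve.b₄, WeierstrassCurve.b₆]
    have h4' : (4 : F) = 2 * 2 := by norm_num
    rw [h4']
    field_simp
    ring
  have key2 : ∀ x y : F, W.toAffine.Equation x y ↔ (y + (W.a₁ * x + W.a₃) / 2) ^ 2 = Q282.BP.cub c x := by
    intro x y
    rw [WeierstrassCurve.Affine.equation_iff]
    constructor
    · intro h
      have h1 := key x y
      rw [← sub_eq_zero, h1, sub_eq_zero]
      exact h
    · intro h
      have h1 := key x y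
      rw [h, sub_self] at h1
      exact (sub_eq_zero.1 h1.symm)
  have e2 : {Q : F × F // W.toAffine.Equation Q.1 Q.2} ≃ {P : F × F // P.2 ^ 2 = Q282.BP.cub c P.1} :=
    { toFun := fun Q => ⟨(Q.1.1, Q.1.2 + (W.a₁ * Q.1.1 + W.a₃) / 2), (key2 _ _).1 Q.2⟩
      invFun := fun P => ⟨(P.1.1, P.1.2 - (W.a₁ * P.1.1 + W.a₃) / 2), (key2 _ _).2 (by
        simp only [sub_add_cancel]
        exact P.2)⟩
      left_inv := fun Q => by
        apply Subtype.ext
        apply Prod.ext
        · rfl
        · simp
      right_inv := fun Q => by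
        apply Subtype.ext
        apply Prod.ext
        · rfl
        · simp }
  have e3 : Nat.card W.toAffine.Point = Nat.card {P : F × F // P.2 ^ 2 = Q282.BP.cub c P.1} + 1 := by
    rw [Nat.card_congr e1, Finite.card_option, Nat.card_congr e2]
  have e4 := Q282.NF.card_affine hF (Q282.BP.cub c)
  have e5 := Q282.NF.hasse hF c
  have e6 : Q282.BP.SS c = ∑ x : F, Q282.BP.ch (Q282.BP.cub c x) := rfl
  rw [← e6] at e4
  rw [e3]
  push_cast
  rw [e4, Nat.card_eq_fintype_card]
  have e7 : (Fintype.card F : ℝ) + 1 - ((Fintype.card F : ℝ) + Q282.BP.SS c + 1) = - Q282.BP.SS c := by ring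
  rw [e7, abs_neg]
  exact e5

variable {K : Type} [Field K] [NumberField K] (E : WeierstrassCurve K)

theorem eV_or (v : HeightOneSpectrum (𝓞 K)) : eV E v = nm v ∨ (eV E v = 0 ∧ |aV E v| ≤ 1) := by
  unfold eV aV eLoc aLoc
  rw [card_res]
  split_ifs
  · left; rfl
  · right; simp
  · right; simp
  · right; simp

/-- the trace of Frobenius at a place: either the bound of Hasse, or a large residue field of
characteristic two -/
theorem aV_small (v : HeightOneSpectrum (𝓞 K)) :
    (aV E v) ^ 2 ≤ 4 * (nm v : ℤ) ∨ ((below v : ℕ) = 2 ∧ 8 ≤ nm v) := by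
  classical
  rcases eV_or E v with h | ⟨_, h⟩
  swap
  · left
    have h1 : (aV E v) ^ 2 ≤ 1 := by
      rw [sq_le_one_iff_abs_le_one]; exact h
    have h2 : (2 : ℤ) ≤ nm v := by exact_mod_cast two_le_nm v
    linarith
  by_cases hgood : (((E.baseChange (v.adicCompletion K)).minimal
      (v.adicCompletionIntegers K)).HasGoodReduction (v.adicCompletionIntegers K))
  swap
  · exfalso
    unfold eV eLoc at h
    rw [if_neg hgood] at h
    have h2 : (2 : ℤ) ≤ nm v := by exact_mod_cast two_le_nm v
    rw [← h] at h2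
    norm_num at h2
  have hell : (((E.baseChange (v.adicCompletion K)).minimal
      (v.adicCompletionIntegers K)).reduction (v.adicCompletionIntegers K)).IsElliptic := by
    have := hgood.toIsMinimal
    exact (WeierstrassCurve.hasGoodReduction_iff_isElliptic_reduction (v.adicCompletionIntegers K)).1 hgood
  have hfin := finite_res v
  by_cases hch : ringChar (ResidueField (v.adicCompletionIntegers K)) = 2
  swap
  · left
    have h1 := hasse_long hch (((E.baseChange (v.adicCompletion K)).minimal
      (v.adicCompletionIntegers K)).reduction (v.adicCompletionIntegers K))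
    have h2 : aV E v = (Nat.card (ResidueField (v.adicCompletionIntegers K)) : ℤ) + 1 -
        (Nat.card (((E.baseChange (v.adicCompletion K)).minimal
        (v.adicCompletionIntegers K)).reduction (v.adicCompletionIntegers K)).toAffine.Point) := by
      unfold aV aLoc
      rw [if_pos hgood]
    have h3 : ((aV E v : ℤ) : ℝ) = (Nat.card (ResidueField (v.adicCompletionIntegers K)) : ℝ) + 1 -
        (Nat.card (((E.baseChange (v.adicCompletion K)).minimal
        (v.adicCompletionIntegers K)).reduction (v.adicCompletionIntegers K)).toAffine.Point : ℝ) := by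
      rw [h2]; push_cast; rfl
    rw [← h3, card_res] at h1
    have h4 : ((aV E v : ℤ) : ℝ) ^ 2 ≤ 4 * (nm v : ℝ) := by
      rw [← sq_abs]
      calc |((aV E v : ℤ) : ℝ)| ^ 2 ≤ (2 * Real.sqrt (nm v)) ^ 2 := by gcongr
        _ = 4 * (nm v : ℝ) := by
          rw [mul_pow, Real.sq_sqrt (by positivity)]; norm_num
    exact_mod_cast h4
  · obtain ⟨h1, h2, h3⟩ := nm_eq v
    have hbel : (below v : ℕ) = 2 := by
      have hc1 : ringChar (ResidueField (v.adicCompletionIntegers K)) ∣ nm v := by
        rw [← card_res v]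
        rw [← ringChar.spec]
        have := Fintype.ofFinite (ResidueField (v.adicCompletionIntegers K))
        rw [Nat.card_eq_fintype_card]
        exact FiniteField.cast_card_eq_zero _
      rw [hch, h1] at hc1
      have h5 := (Nat.prime_two.dvd_of_dvd_pow hc1)
      exact ((Nat.prime_dvd_prime_iff_eq Nat.prime_two (below v).2).1 h5).symm
    by_cases h8 : 8 ≤ nm v
    · right; exact ⟨hbel, h8⟩
    · left
      have h6 : nm v ≤ 4 := by
        rw [h1, hbel] at h8 ⊢
        have h7 : Pool.Agent.H921R2.TatePole.deg v < 3 := by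
          by_contra hcon
          apply h8
          calc 8 = 2 ^ 3 := by norm_num
            _ ≤ 2 ^ Pool.Agent.H921R2.TatePole.deg v := Nat.pow_le_pow_right (by norm_num) (by omega)
        calc 2 ^ Pool.Agent.H921R2.TatePole.deg v ≤ 2 ^ 2 := Nat.pow_le_pow_right (by norm_num) (by omega)
          _ = 4 := by norm_num
      have h7 := Pool.Agent.W189.NF.aV_le E v
      have h8 : (nm v : ℤ) ≤ 4 := by exact_mod_cast h6
      have h9 : (0 : ℤ) ≤ nm v := by positivity
      calc aV E v ^ 2 = |aV E v| ^ 2 := (sq_abs _).symm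
        _ ≤ (nm v : ℤ) ^ 2 := by gcongr
        _ ≤ 4 * (nm v : ℤ) := by nlinarith

end Pool.Agent.H23.AR
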